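import Mathlib

set_option autoImplicit false

namespace Pool.Agent.Results.MP_20595b_gt.GrothProd

open Set Filter Topology Cardinal

universe u

/-- `C_p(X)`: the set of continuous functions `X → ℝ`, with the topology of pointwise convergence
(as a subspace of the product `X → ℝ`). -/
abbrev Cp (X : Type u) [TopologicalSpace X] : Type u := {f : X → ℝ // Continuous f}

/-- `A` is countably compact in `Z`: every infinite subset of `A` has an accumulation point in
`Z`. -/
def CountablyCompactIn {Z : Type u} [TopologicalSpace Z] (A : Set Z) : Prop :=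
  ∀ B : Set Z, B ⊆ A → B.Infinite → ∃ z : Z, AccPt z (𝓟 B)

/-- `Z` is a g-space: the closure of every set that is countably compact in `Z` is compact. -/
def IsGSpace (Z : Type u) [TopologicalSpace Z] : Prop :=
  ∀ A : Set Z, CountablyCompactIn A → IsCompact (closure A)

/-- `X` is weakly Grothendieck: `C_p(X)` is a g-space. -/
def WeaklyGrothendieck (X : Type u) [TopologicalSpace X] : Prop := IsGSpace (Cp X)

/-- `X` is Grothendieck: every subspace of `C_p(X)` is a g-space. -/
def Grothendieck (X : Type u) [TopologicalSpace X] : Prop := ∀ S : Set (Cp X), IsGSpace S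

section part1

/-- sequences with values in a countably compact set have cluster points -/
theorem exists_cluster {Z : Type u} [TopologicalSpace Z] [T1Space Z] (A : Set Z)
    (hA : CountablyCompactIn A) (v : ℕ → Z) (hv : ∀ n, v n ∈ A) :
    ∃ g : Z, ∀ U ∈ 𝓝 g, ∃ᶠ n in atTop, v n ∈ U := by
  by_cases hfin : (Set.range v).Finite
  · by_contra hcon
    push Not at hcon
    have h1 : ∀ g : Z, ∀ᶠ n in atTop, v n ≠ g := by
      intro g
      obtain ⟨U, hU, hUn⟩ := hcon g
      filter_upwards [hUn] with n hn h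
      rw [h] at hn
      exact hn (mem_of_mem_nhds hU)
    have h2 : ∀ᶠ n in atTop, ∀ g ∈ Set.range v, v n ≠ g := by
      rw [Filter.eventually_all_finite hfin]
      intro g _
      exact h1 g
    obtain ⟨n, hn⟩ := h2.exists
    exact hn (v n) ⟨n, rfl⟩ rfl
  · obtain ⟨g, hg⟩ := hA (Set.range v) (by rintro _ ⟨n, rfl⟩; exact hv n) hfin
    refine ⟨g, fun U hU => ?_⟩
    rw [Filter.frequently_atTop]
    intro N
    rw [accPt_iff_nhds] at hg
    have hfinset : ((v '' Set.Iio N) \ {g}).Finite := ((Set.finite_Iio N).image v).sdiff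
    have hU' : U ∩ ((v '' Set.Iio N) \ {g})ᶜ ∈ 𝓝 g := by
      apply Filter.inter_mem hU
      apply hfinset.isClosed.isOpen_compl.mem_nhds
      intro h
      exact h.2 rfl
    obtain ⟨y, ⟨⟨hyU, hyc⟩, ⟨n, rfl⟩⟩, hne⟩ := hg _ hU'
    refine ⟨n, ?_, hyU⟩
    by_contra hlt
    push Not at hlt
    exact hyc ⟨⟨n, hlt, rfl⟩, hne⟩

variable {X : Type u} [TopologicalSpace X]

theorem eq_of_close (a b : ℝ) (h : ∀ ε > 0, |a - b| < ε) : a = b := by
  by_contra hne
  exact lt_irrefl _ (h _ (abs_pos.mpr (sub_ne_zero.mpr hne)))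

/-- a countable set which is dense for finitely many functions -/
theorem exists_dense_seq (Φ : Finset (Cp X)) (F : X → ℝ) (x0 : X) :
    ∃ D : ℕ → X, ∀ x : X, ∀ ε > 0, ∃ j, |F (D j) - F x| < ε ∧ ∀ f ∈ Φ, |f.1 (D j) - f.1 x| < ε := by
  let q : X → (Φ → ℝ) × ℝ := fun x => (fun f => f.1.1 x, F x)
  have : Nonempty (Set.range q) := ⟨⟨q x0, x0, rfl⟩⟩
  have : TopologicalSpace.SeparableSpace (Set.range q) := inferInstance
  let d := TopologicalSpace.denseSeq (Set.range q)
  have hd := TopologicalSpace.denseRange_denseSeq (Set.range q)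
  choose D hD using fun j => (d j).2
  refine ⟨D, fun x ε hε => ?_⟩
  obtain ⟨j, hj0⟩ := hd.exists_dist_lt ⟨q x, x, rfl⟩ hε
  have hj : dist (d j).1 (q x) < ε := by
    rw [dist_comm]
    exact hj0
  refine ⟨j, ?_, ?_⟩
  · have h1 : dist (d j).1 (q x) < ε := hj
    rw [← hD j] at h1
    have h2 := (max_lt_iff.mp (by simpa [Prod.dist_eq] using h1 : max (dist (q (D j)).1 (q x).1) (dist (q (D j)).2 (q x).2) < ε)).2
    rwa [Real.dist_eq] at h2
  · intro f hf
    have h1 : dist (d j).1 (q x) < ε := hj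
    rw [← hD j] at h1
    have h2 := (max_lt_iff.mp (by simpa [Prod.dist_eq] using h1 : max (dist (q (D j)).1 (q x).1) (dist (q (D j)).2 (q x).2) < ε)).1
    have h3 := (dist_pi_lt_iff hε).mp h2 ⟨f, hf⟩
    rwa [Real.dist_eq] at h3

theorem approx (A : Set (Cp X)) (F : X → ℝ)
    (hF : F ∈ closure ((fun f : Cp X => f.1) '' A)) (E : Finset X) (ε : ℝ) (hε : 0 < ε) :
    ∃ f ∈ A, ∀ x ∈ E, |f.1 x - F x| < ε := by
  have hopen : IsOpen {G : X → ℝ | ∀ x ∈ E, |G x - F x| < ε} := by
    have : {G : X → ℝ | ∀ x ∈ E, |G x - F x| < ε} = ⋂ x ∈ E, {G : X → ℝ | |G x - F x| < ε} := by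
      ext; simp
    rw [this]
    apply isOpen_biInter_finset
    intro x _
    exact isOpen_lt (((continuous_apply x).sub continuous_const).abs) continuous_const
  obtain ⟨_, hG, ⟨f, hf, rfl⟩⟩ := mem_closure_iff.mp hF _ hopen (by
    intro x _
    simpa using hε)
  exact ⟨f, hf, hG⟩

/-- the main construction: a function in the closure of `A` is the pointwise limit of a sequence of
elements of `A`, if `X` is countably compact. -/
theorem seq_limit [T1Space X] (hX : CountablyCompactIn (Set.univ : Set X))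
    (A : Set (Cp X))
    (hcl : ∀ v : ℕ → Cp X, (∀ n, v n ∈ A) → ∃ g : Cp X, ∀ U ∈ 𝓝 g, ∃ᶠ n in atTop, v n ∈ U)
    (F : X → ℝ) (hF : F ∈ closure ((fun f : Cp X => f.1) '' A)) (x0 : X) :
    ∃ f : ℕ → Cp X, (∀ n, f n ∈ A) ∧ ∀ x, Tendsto (fun n => (f n).1 x) atTop (𝓝 (F x)) := by
  classical
  choose D hD using fun Φ : Finset (Cp X) => exists_dense_seq Φ F x0
  -- states
  let P : (ℕ × Finset (Cp X) × Cp X) → Prop := fun s => s.2.2 ∈ A
  let r : (ℕ × Finset (Cp X) × Cp X) → (ℕ × Finset (Cp X) × Cp X) → Prop := fun s s' =>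
    s.1 < s'.1 ∧ s.2.1 ⊆ s'.2.1 ∧ s.2.2 ∈ s'.2.1 ∧
      ∀ j ≤ s'.1, |s'.2.2.1 (D s.2.1 j) - F (D s.2.1 j)| < 1 / ((s'.1 : ℝ) + 1)
  obtain ⟨st, hstP, hstr⟩ := exists_seq_of_forall_finset_exists P r (by
    intro s hs
    let k : ℕ := (s.sup (fun a => a.1)) + 1
    let Φ : Finset (Cp X) := s.biUnion (fun a => insert a.2.2 a.2.1)
    let E : Finset X := s.biUnion (fun a => (Finset.range (k+1)).image (D a.2.1))
    obtain ⟨f, hfA, hf⟩ := approx A F hF E (1 / ((k : ℝ) + 1)) (by positivity)
    refine ⟨(k, Φ, f), hfA, ?_⟩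
    intro a ha
    refine ⟨?_, ?_, ?_, ?_⟩
    · have : a.1 ≤ s.sup (fun a => a.1) := Finset.le_sup (f := fun a : ℕ × Finset (Cp X) × Cp X => a.1) ha
      show a.1 < k
      omega
    · intro b hb
      exact Finset.mem_biUnion.mpr ⟨a, ha, Finset.mem_insert_of_mem hb⟩
    · exact Finset.mem_biUnion.mpr ⟨a, ha, Finset.mem_insert_self _ _⟩
    · intro j hj
      apply hf
      exact Finset.mem_biUnion.mpr ⟨a, ha, Finset.mem_image.mpr ⟨j, Finset.mem_range.mpr (Nat.lt_succ_of_le hj), rfl⟩⟩)
  have hk : ∀ n, n ≤ (st n).1 := by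
    intro n
    induction n with
    | zero => exact Nat.zero_le _
    | succ n ih => exact lt_of_le_of_lt ih (hstr n (n+1) (Nat.lt_succ_self n)).1
  let f : ℕ → Cp X := fun n => (st n).2.2
  have hfA : ∀ n, f n ∈ A := hstP
  -- convergence on the dense points
  have hconvD : ∀ m j, ∀ ε > 0, ∀ᶠ n in atTop, |(f n).1 (D (st m).2.1 j) - F (D (st m).2.1 j)| < ε := by
    intro m j ε hε
    obtain ⟨N, hN⟩ := exists_nat_one_div_lt hε
    filter_upwards [eventually_gt_atTop m, eventually_ge_atTop j, eventually_ge_atTop N] with n h1 h2 h3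
    refine lt_of_lt_of_le ((hstr m n h1).2.2.2 j (h2.trans (hk n))) (le_trans ?_ hN.le)
    have : (N : ℝ) ≤ ((st n).1 : ℝ) := by exact_mod_cast h3.trans (hk n)
    gcongr
  refine ⟨f, hfA, fun x => ?_⟩
  rw [Metric.tendsto_atTop']
  intro ε hε
  by_contra hcon
  push Not at hcon
  -- subsequence far from F x
  have hfreq : ∃ᶠ n in atTop, ε ≤ |(f n).1 x - F x| := by
    rw [Filter.frequently_atTop']
    intro N
    obtain ⟨n, hn, hd⟩ := hcon N
    exact ⟨n, hn, by rwa [Real.dist_eq] at hd⟩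
  obtain ⟨φ, hφmono, hφ⟩ := Filter.extraction_of_frequently_atTop hfreq
  obtain ⟨g, hg⟩ := hcl (fun n => f (φ n)) (fun n => hfA _)
  -- points s m
  have hs : ∀ m : ℕ, ∃ j, |F (D (st m).2.1 j) - F x| < 1 / ((m : ℝ) + 1) ∧
      ∀ h ∈ (st m).2.1, |h.1 (D (st m).2.1 j) - h.1 x| < 1 / ((m : ℝ) + 1) :=
    fun m => hD _ x _ (by positivity)
  choose j hj1 hj2 using hs
  let s : ℕ → X := fun m => D (st m).2.1 (j m)
  obtain ⟨y, hy⟩ := exists_cluster Set.univ hX s (fun _ => trivial)
  -- generic: frequently close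
  have hyc : ∀ h : Cp X, ∀ δ > 0, ∃ᶠ m in atTop, |h.1 (s m) - h.1 y| < δ := by
    intro h δ hδ
    refine hy {z : X | |h.1 z - h.1 y| < δ} ?_
    have : IsOpen {z : X | |h.1 z - h.1 y| < δ} :=
      isOpen_lt ((h.2.sub continuous_const).abs) continuous_const
    exact this.mem_nhds (by simpa using hδ)
  have hgc : ∀ (E : Finset X) (δ : ℝ), 0 < δ → ∃ᶠ n in atTop, ∀ z ∈ E, |(f (φ n)).1 z - g.1 z| < δ := by
    intro E δ hδ
    have hopen : IsOpen {G : Cp X | ∀ z ∈ E, |G.1 z - g.1 z| < δ} := by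
      have : {G : Cp X | ∀ z ∈ E, |G.1 z - g.1 z| < δ} = ⋂ z ∈ E, {G : Cp X | |G.1 z - g.1 z| < δ} := by
        ext; simp
      rw [this]
      apply isOpen_biInter_finset
      intro z _
      exact isOpen_lt ((((continuous_apply z).comp continuous_subtype_val).sub continuous_const).abs) continuous_const
    exact hg _ (hopen.mem_nhds (by intro z _; simpa using hδ))
  have hsmall : ∀ δ > (0:ℝ), ∀ᶠ m : ℕ in atTop, 1 / ((m : ℝ) + 1) < δ := by
    intro δ hδ
    obtain ⟨N, hN⟩ := exists_nat_one_div_lt hδ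
    filter_upwards [eventually_ge_atTop N] with m hm
    refine lt_of_le_of_lt ?_ hN
    have : (N : ℝ) ≤ m := by exact_mod_cast hm
    gcongr
  -- (1)
  have h1 : ∀ i, (f i).1 y = (f i).1 x := by
    intro i
    apply eq_of_close
    intro δ hδ
    obtain ⟨m, hm1, hm2, hm3⟩ := ((hyc (f i) (δ/2) (by positivity)).and_eventually
      ((hsmall (δ/2) (by positivity)).and (eventually_gt_atTop i))).exists
    have h := hj2 m (f i) (hstr i m hm3).2.2.1
    have h' : |(f i).1 (s m) - (f i).1 x| < δ / 2 := h.trans hm2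
    have e : (f i).1 y - (f i).1 x = -((f i).1 (s m) - (f i).1 y) + ((f i).1 (s m) - (f i).1 x) := by ring
    rw [e]
    calc _ ≤ |-((f i).1 (s m) - (f i).1 y)| + |(f i).1 (s m) - (f i).1 x| := abs_add_le _ _
      _ < δ := by rw [abs_neg]; linarith
  -- (2)
  have h2 : ∀ m, g.1 (s m) = F (s m) := by
    intro m
    apply eq_of_close
    intro δ hδ
    have hev := (hφmono.tendsto_atTop.eventually (hconvD m (j m) (δ/2) (by positivity)))
    obtain ⟨n, hn1, hn2⟩ := ((hgc {s m} (δ/2) (by positivity)).and_eventually hev).exists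
    have hn1' := hn1 (s m) (by simp)
    have hn2' : |(f (φ n)).1 (s m) - F (s m)| < δ / 2 := hn2
    have e : g.1 (s m) - F (s m) = -((f (φ n)).1 (s m) - g.1 (s m)) + ((f (φ n)).1 (s m) - F (s m)) := by ring
    rw [e]
    calc _ ≤ |-((f (φ n)).1 (s m) - g.1 (s m))| + |(f (φ n)).1 (s m) - F (s m)| := abs_add_le _ _
      _ < δ := by rw [abs_neg]; linarith
  -- (3)
  have h3 : g.1 y = F x := by
    apply eq_of_close
    intro δ hδ
    obtain ⟨m, hm1, hm2⟩ := ((hyc g (δ/2) (by positivity)).and_eventually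
      (hsmall (δ/2) (by positivity))).exists
    have h' : |F (s m) - F x| < δ / 2 := (hj1 m).trans hm2
    have e : g.1 y - F x = -(g.1 (s m) - g.1 y) + (F (s m) - F x) := by rw [h2 m]; ring
    rw [e]
    calc _ ≤ |-(g.1 (s m) - g.1 y)| + |F (s m) - F x| := abs_add_le _ _
      _ < δ := by rw [abs_neg]; linarith
  -- (4)
  have h4 : g.1 x = g.1 y := by
    apply eq_of_close
    intro δ hδ
    obtain ⟨n, hn⟩ := (hgc {x, y} (δ/2) (by positivity)).exists
    have hx := hn x (by simp)
    have hy' := hn y (by simp)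
    rw [h1] at hy'
    have e : g.1 x - g.1 y = -((f (φ n)).1 x - g.1 x) + ((f (φ n)).1 x - g.1 y) := by ring
    rw [e]
    calc _ ≤ |-((f (φ n)).1 x - g.1 x)| + |(f (φ n)).1 x - g.1 y| := abs_add_le _ _
      _ < δ := by rw [abs_neg]; linarith
  obtain ⟨n, hn⟩ := (hgc {x} ε hε).exists
  have hx := hn x (by simp)
  rw [h4, h3] at hx
  exact absurd hx (not_lt.mpr (hφ n))

/-- Countably compact T1 spaces are Grothendieck (Grothendieck's theorem). -/
theorem groth_of_cc [T1Space X] (hX : CountablyCompactIn (Set.univ : Set X)) : Grothendieck X := by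
  intro S A hA
  have : T1Space S := inferInstance
  rcases isEmpty_or_nonempty X with hE | ⟨⟨x0⟩⟩
  · have : Subsingleton S := ⟨fun a b => Subtype.ext (Subtype.ext (funext fun x => (hE.false x).elim))⟩
    exact (Set.toFinite _).isCompact
  -- image of A in Cp X
  let A' : Set (Cp X) := (fun a : S => a.1) '' A
  have hcl : ∀ v : ℕ → Cp X, (∀ n, v n ∈ A') → ∃ g : S, ∀ U ∈ 𝓝 g.1, ∃ᶠ n in atTop, v n ∈ U := by
    intro v hv
    choose w hwA hw using hv
    obtain ⟨g, hg⟩ := exists_cluster A hA w hwA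
    refine ⟨g, fun U hU => ?_⟩
    have := hg ((fun a : S => a.1) ⁻¹' U) (continuous_subtype_val.continuousAt.preimage_mem_nhds hU)
    refine this.mono fun n hn => ?_
    rw [← hw n]
    exact hn
  -- pointwise bounded
  have hbdd : ∀ x : X, ∃ M : ℝ, ∀ f ∈ A', |f.1 x| ≤ M := by
    intro x
    by_contra hcon
    push Not at hcon
    choose v hvA hv using fun n : ℕ => hcon n
    obtain ⟨g, hg⟩ := hcl v hvA
    have hopen : IsOpen {G : Cp X | |G.1 x - g.1.1 x| < 1} :=
      isOpen_lt ((((continuous_apply x).comp continuous_subtype_val).sub continuous_const).abs) continuous_const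
    have h1 := hg _ (hopen.mem_nhds (by simp))
    obtain ⟨N, hN⟩ := exists_nat_ge (|g.1.1 x| + 1)
    obtain ⟨n, hn, hn2⟩ := (h1.and_eventually (eventually_ge_atTop N)).exists
    have hn' : |(v n).1 x - g.1.1 x| < 1 := hn
    have h3 := hv n
    have h4 : |(v n).1 x| ≤ |(v n).1 x - g.1.1 x| + |g.1.1 x| := by
      have := abs_add_le ((v n).1 x - g.1.1 x) (g.1.1 x)
      simpa using this
    have h5 : (N : ℝ) ≤ n := by exact_mod_cast hn2
    linarith
  choose M hM using hbdd
  let ι : S → (X → ℝ) := fun a => a.1.1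
  have hι : IsEmbedding ι := IsEmbedding.subtypeVal.comp IsEmbedding.subtypeVal
  have himg : ι '' A = (fun f : Cp X => f.1) '' A' := by
    rw [Set.image_image]
  have hKc : IsCompact (closure (ι '' A)) := by
    apply IsCompact.of_isClosed_subset (isCompact_univ_pi (fun x => isCompact_Icc (a := -M x) (b := M x))) isClosed_closure
    apply closure_minimal _ (isClosed_set_pi fun x _ => isClosed_Icc)
    rw [himg]
    rintro _ ⟨f, hf, rfl⟩ x _
    exact abs_le.mp (hM x f hf)
  have hrange : closure (ι '' A) ⊆ Set.range ι := by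
    intro F hF
    rw [himg] at hF
    obtain ⟨f, hfA, hf⟩ := seq_limit hX A' (fun v hv => by
      obtain ⟨g, hg⟩ := hcl v hv
      exact ⟨g.1, hg⟩) F hF x0
    obtain ⟨g, hg⟩ := hcl f hfA
    refine ⟨g, ?_⟩
    funext x
    show g.1.1 x = F x
    apply eq_of_close
    intro δ hδ
    have hopen : IsOpen {G : Cp X | |G.1 x - g.1.1 x| < δ/2} :=
      isOpen_lt ((((continuous_apply x).comp continuous_subtype_val).sub continuous_const).abs) continuous_const
    have h1 := hg _ (hopen.mem_nhds (by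
      show |g.1.1 x - g.1.1 x| < δ/2
      simpa using hδ))
    have h2 : ∀ᶠ n in atTop, |(f n).1 x - F x| < δ/2 := by
      have := (Metric.tendsto_nhds.mp (hf x)) (δ/2) (by positivity)
      simpa [Real.dist_eq] using this
    obtain ⟨n, hn1, hn2⟩ := (h1.and_eventually h2).exists
    have hn1' : |(f n).1 x - g.1.1 x| < δ/2 := hn1
    have e : g.1.1 x - F x = -((f n).1 x - g.1.1 x) + ((f n).1 x - F x) := by ring
    rw [e]
    calc _ ≤ |-((f n).1 x - g.1.1 x)| + |(f n).1 x - F x| := abs_add_le _ _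
      _ < δ := by rw [abs_neg]; linarith
  rw [hι.isCompact_iff]
  have : ι '' closure A = closure (ι '' A) := by
    rw [hι.closure_eq_preimage_closure_image, Set.image_preimage_eq_of_subset hrange]
  rw [this]
  exact hKc

end part1

section part2

/-- nonprincipal ultrafilters on `ℕ` -/
abbrev NP : Type := {u : Ultrafilter ℕ // ∀ s : Set ℕ, s.Finite → s ∉ u}

abbrev CC : Type := Finset ℕ × Finset (Finset ℕ)

open Classical in
/-- trace of a set on an initial segment -/
noncomputable def tr (X : Set ℕ) (F : Finset ℕ) : Finset ℕ := F.filter (fun n => n ∈ X)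

/-- the independent family -/
def ind (X : Set ℕ) : Set CC := {c | tr X c.1 ∈ c.2}

open Classical in
theorem exists_uf (Φ : Set (Set ℕ)) : ∃ w : Ultrafilter CC,
    (∀ X ∈ Φ, ind X ∈ w) ∧ (∀ X ∉ Φ, (ind X)ᶜ ∈ w) ∧ ∀ s : Set CC, s.Finite → s ∉ w := by
  let S : Set (Set CC) := {t | (∃ X, t = if X ∈ Φ then ind X else (ind X)ᶜ) ∨ tᶜ.Finite}
  have hcond : ∀ T : Finset (Set CC), (↑T : Set (Set CC)) ⊆ S → (⋂₀ (↑T : Set (Set CC))).Nonempty := by
    intro T hT
    have hch : ∀ t : Set CC, ∃ X : Set ℕ, t ∈ T →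
        (t = (if X ∈ Φ then ind X else (ind X)ᶜ)) ∨ tᶜ.Finite := by
      intro t
      by_cases ht : t ∈ T
      · rcases hT ht with ⟨X, hX⟩ | h
        · exact ⟨X, fun _ => Or.inl hX⟩
        · exact ⟨∅, fun _ => Or.inr h⟩
      · exact ⟨∅, fun h => absurd h ht⟩
    choose X hX using hch
    let 𝒮 : Finset (Set ℕ) := T.image X
    let c : ℕ → CC := fun N => (Finset.range N, (𝒮.filter (· ∈ Φ)).image (fun Y => tr Y (Finset.range N)))
    have hcinj : Function.Injective c := by
      intro a b h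
      have : Finset.range a = Finset.range b := congrArg Prod.fst h
      simpa using congrArg Finset.card this
    have h1 : ∀ᶠ N in atTop, ∀ Y ∈ 𝒮, ∀ Z ∈ 𝒮, Y ≠ Z → tr Y (Finset.range N) ≠ tr Z (Finset.range N) := by
      rw [Filter.eventually_all_finset]
      intro Y _
      rw [Filter.eventually_all_finset]
      intro Z _
      by_cases hYZ : Y = Z
      · exact Eventually.of_forall fun _ h => absurd hYZ h
      · obtain ⟨n, hn⟩ : ∃ n, ¬ (n ∈ Y ↔ n ∈ Z) := by
          by_contra hcon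
          push Not at hcon
          exact hYZ (Set.ext hcon)
        filter_upwards [eventually_gt_atTop n] with N hN _ heq
        apply hn
        have h2 := Finset.ext_iff.mp heq n
        simpa [tr, hN] using h2
    have h2 : ∀ᶠ N in atTop, ∀ t ∈ T, tᶜ.Finite → c N ∉ tᶜ := by
      rw [Filter.eventually_all_finset]
      intro t _
      by_cases hf : tᶜ.Finite
      · have h3 : Tendsto c cofinite cofinite := hcinj.tendsto_cofinite
        rw [Nat.cofinite_eq_atTop] at h3
        have h4 := h3.eventually hf.compl_mem_cofinite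
        filter_upwards [h4] with N hN _
        exact hN
      · exact Eventually.of_forall fun _ h => absurd h hf
    obtain ⟨N, hN1, hN2⟩ := (h1.and h2).exists
    refine ⟨c N, ?_⟩
    intro t ht
    have ht' : t ∈ T := ht
    rcases hX t ht' with h | h
    · rw [h]
      have hXS : X t ∈ 𝒮 := Finset.mem_image_of_mem X ht'
      split_ifs with hΦ
      · show tr (X t) (Finset.range N) ∈ (𝒮.filter (· ∈ Φ)).image (fun Y => tr Y (Finset.range N))
        exact Finset.mem_image.mpr ⟨X t, Finset.mem_filter.mpr ⟨hXS, hΦ⟩, rfl⟩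
      · intro hmem0
        have hmem : tr (X t) (Finset.range N) ∈
          (𝒮.filter (· ∈ Φ)).image (fun Y => tr Y (Finset.range N)) := hmem0
        obtain ⟨Y, hY, hYe⟩ := Finset.mem_image.mp hmem
        obtain ⟨hYS, hYΦ⟩ := Finset.mem_filter.mp hY
        exact hN1 Y hYS (X t) hXS (fun he => hΦ (he ▸ hYΦ)) hYe
    · by_contra hc
      exact hN2 t ht' h hc
  obtain ⟨w, hw⟩ := Ultrafilter.exists_ultrafilter_of_finite_inter_nonempty S hcond
  refine ⟨w, ?_, ?_, ?_⟩
  · intro X hX
    exact hw (Or.inl ⟨X, by simp [hX]⟩)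
  · intro X hX
    exact hw (Or.inl ⟨X, by simp [hX]⟩)
  · intro s hs
    have h : sᶜ ∈ w := hw (Or.inr (by rwa [compl_compl]))
    exact Ultrafilter.compl_mem_iff_notMem.mp h

theorem mk_NP : #(Set (Set ℕ)) ≤ #NP := by
  choose w hw1 hw2 hw3 using exists_uf
  obtain ⟨e⟩ : Nonempty (CC ≃ ℕ) := ⟨Denumerable.eqv CC⟩
  refine Cardinal.mk_le_of_injective (f := fun Φ => (⟨(w Φ).map e, ?_⟩ : NP)) ?_
  · intro s hs hmem
    have h1 : e ⁻¹' s ∈ w Φ := hmem
    exact hw3 Φ _ (hs.preimage e.injective.injOn) h1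
  · intro Φ Ψ h
    have h' : (w Φ).map e = (w Ψ).map e := congrArg Subtype.val h
    have h'' : w Φ = w Ψ := by
      apply Ultrafilter.coe_injective
      have h3 := congrArg (fun u : Ultrafilter ℕ => (u : Filter ℕ)) h'
      simp only [Ultrafilter.coe_map] at h3
      exact Filter.map_injective e.injective h3
    ext X
    constructor
    · intro hX
      by_contra hX'
      have h1 := hw1 Φ X hX
      rw [h''] at h1
      exact (Ultrafilter.compl_mem_iff_notMem.mp (hw2 Ψ X hX')) h1
    · intro hX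
      by_contra hX'
      have h1 := hw1 Ψ X hX
      rw [← h''] at h1
      exact (Ultrafilter.compl_mem_iff_notMem.mp (hw2 Φ X hX')) h1

/-- selection of distinct representatives -/
theorem select {W T : Type} (target : W → Set T) (h : ∀ w, #W ≤ #(target w)) :
    ∃ g : W → T, Function.Injective g ∧ ∀ w, g w ∈ target w := by
  classical
  obtain ⟨r, wo, hr⟩ := Cardinal.exists_ord_eq W
  rcases isEmpty_or_nonempty W with hW | ⟨⟨w0⟩⟩
  · exact ⟨fun w => (hW.false w).elim, fun w => (hW.false w).elim, fun w => (hW.false w).elim⟩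
  have hTne : Nonempty T := by
    have h0 : #(target w0) ≠ 0 := by
      intro h0
      have := h w0
      rw [h0] at this
      exact (Cardinal.mk_ne_zero_iff.mpr ⟨w0⟩) (le_antisymm this (by simp))
    obtain ⟨⟨t, _⟩⟩ := Cardinal.mk_ne_zero_iff.mp h0
    exact ⟨t⟩
  let F : (w : W) → ((w' : W) → r w' w → T) → T := fun w prev =>
    if hne : (target w \ {t | ∃ (w' : W) (hw' : r w' w), t = prev w' hw'}).Nonempty then hne.some
    else Classical.arbitrary T
  have hwf : WellFounded r := wo.toIsWellFounded.wf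
  let g : W → T := hwf.fix F
  have hg : ∀ w, g w = F w (fun w' _ => g w') := fun w => WellFounded.fix_eq _ _ _
  have hne : ∀ w, (target w \ {t | ∃ (w' : W) (_ : r w' w), t = g w'}).Nonempty := by
    intro w
    apply Cardinal.sdiff_nonempty_of_mk_lt_mk
    have h1 : #{t | ∃ (w' : W) (_ : r w' w), t = g w'} ≤ #{w' // r w' w} := by
      refine Cardinal.mk_le_of_surjective (f := fun w' : {w' // r w' w} =>
        (⟨g w'.1, w'.1, w'.2, rfl⟩ : {t | ∃ (w' : W) (_ : r w' w), t = g w'})) ?_
      rintro ⟨t, w', hw', rfl⟩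
      exact ⟨⟨w', hw'⟩, rfl⟩
    refine lt_of_le_of_lt h1 (lt_of_lt_of_le ?_ (h w))
    have h2 := Cardinal.card_typein_lt (r := r) w hr
    rwa [Ordinal.card_typein] at h2
  have hmem : ∀ w, g w ∈ target w \ {t | ∃ (w' : W) (_ : r w' w), t = g w'} := by
    intro w
    have h1 : g w = (hne w).some := by
      rw [hg w]
      show (if hne : (target w \ {t | ∃ (w' : W) (hw' : r w' w), t = g w'}).Nonempty then hne.some
        else Classical.arbitrary T) = _
      rw [dif_pos (hne w)]
    rw [h1]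
    exact (hne w).some_mem
  refine ⟨g, ?_, fun w => (hmem w).1⟩
  intro a b hab
  rcases trichotomous_of r a b with h1 | h1 | h1
  · exact absurd ⟨a, h1, hab.symm⟩ (hmem b).2
  · exact h1
  · exact absurd ⟨b, h1, hab⟩ (hmem a).2

end part2

section part3

abbrev U : Type := Ultrafilter ℝ

/-- ultrafilters on `ℝ` containing a countable set -/
abbrev TT : Type := {u : U // ∃ E : Set ℝ, E.Countable ∧ E ∈ u}

theorem mk_TT : #TT ≤ 2 ^ 𝔠 := by
  have h1 : #TT ≤ #((ℕ → ℝ) × Ultrafilter ℕ) := by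
    refine Cardinal.mk_le_of_surjective (f := fun p : (ℕ → ℝ) × Ultrafilter ℕ =>
      (⟨p.2.map p.1, Set.range p.1, Set.countable_range _, by
        show p.1 ⁻¹' (Set.range p.1) ∈ p.2
        rw [Set.preimage_range]
        exact Filter.univ_mem⟩ : TT)) ?_
    rintro ⟨u, E, hE, hEu⟩
    have hne : E.Nonempty := Ultrafilter.nonempty_of_mem hEu
    obtain ⟨e, rfl⟩ := hE.exists_eq_range hne
    have hNB : (Filter.comap e (u : Filter ℝ)).NeBot := by
      rw [Filter.comap_neBot_iff]
      intro t ht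
      obtain ⟨x, hx1, ⟨n, rfl⟩⟩ := Ultrafilter.nonempty_of_mem (Filter.inter_mem ht hEu)
      exact ⟨n, hx1⟩
    refine ⟨(e, Ultrafilter.of (Filter.comap e (u : Filter ℝ))), ?_⟩
    apply Subtype.ext
    apply Ultrafilter.coe_injective
    have hle : ((Ultrafilter.of (Filter.comap e (u : Filter ℝ))).map e : Filter ℝ) ≤ u := by
      rw [Ultrafilter.coe_map]
      exact (Filter.map_mono (Ultrafilter.of_le _)).trans Filter.map_comap_le
    exact congrArg _ (Ultrafilter.eq_of_le hle)
  have h2 : #(Ultrafilter ℕ) ≤ 2 ^ 𝔠 := by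
    have : #(Ultrafilter ℕ) ≤ #(Set (Set ℕ)) := by
      refine Cardinal.mk_le_of_injective (f := fun u : Ultrafilter ℕ => {s | s ∈ u}) ?_
      intro u v h
      ext s
      exact Set.ext_iff.mp h s
    refine this.trans ?_
    simp
  refine h1.trans ?_
  rw [Cardinal.mk_prod]
  simp only [Cardinal.lift_id]
  have h3 : #(ℕ → ℝ) = 𝔠 := by
    rw [← Cardinal.power_def, Cardinal.mk_real, Cardinal.mk_nat, Cardinal.continuum_power_aleph0]
  rw [h3]
  calc 𝔠 * #(Ultrafilter ℕ) ≤ 2 ^ 𝔠 * 2 ^ 𝔠 :=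
        mul_le_mul' (Cardinal.cantor _).le h2
    _ = 2 ^ 𝔠 := Cardinal.mul_eq_self (Cardinal.aleph0_le_continuum.trans (Cardinal.cantor _).le)

/-- accumulation points of a sequence in `TT` -/
def acc (s : ℕ → TT) : Set TT := {w | AccPt w.1 (𝓟 (Set.range (fun n => (s n).1)))}

theorem basic_nhds (w : U) (O : Set U) (hO : O ∈ 𝓝 w) : ∃ B : Set ℝ, B ∈ w ∧ {u : U | B ∈ u} ⊆ O := by
  obtain ⟨t, ⟨B, rfl⟩, hB1, hB2⟩ := ultrafilterBasis_is_basis.mem_nhds_iff.mp hO
  exact ⟨B, hB1, hB2⟩

theorem mk_acc (s : ℕ → TT) (hs : Function.Injective s) : 2 ^ 𝔠 ≤ #(acc s) := by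
  -- a discrete subsequence
  let P : Set U := Set.range (fun n => (s n).1)
  have hPinf : Infinite P := by
    have : P.Infinite := Set.infinite_range_of_injective (fun a b h => hs (Subtype.ext h))
    exact this.to_subtype
  obtain ⟨f, hf⟩ := exists_topology_isEmbedding_nat P
  let d : ℕ → U := fun n => (f n).1
  have hd : IsEmbedding d := IsEmbedding.subtypeVal.comp hf
  have hB : ∀ n, ∃ B : Set ℝ, B ∈ d n ∧ ∀ m, B ∈ d m → m = n := by
    intro n
    obtain ⟨O, hO, hOn⟩ := hd.isInducing.isOpen_iff.mp (isOpen_discrete ({n} : Set ℕ))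
    have hn : d n ∈ O := by
      have : n ∈ d ⁻¹' O := by rw [hOn]; rfl
      exact this
    obtain ⟨B, hB1, hB2⟩ := basic_nhds (d n) O (hO.mem_nhds hn)
    refine ⟨B, hB1, fun m hm => ?_⟩
    have : m ∈ d ⁻¹' O := hB2 hm
    rw [hOn] at this
    exact this
  choose B hB1 hB2 using hB
  let A : ℕ → Set ℝ := fun n => B n \ ⋃ m ∈ Finset.range n, B m
  have hA1 : ∀ n, A n ∈ d n := by
    intro n
    have h1 : (⋃ m ∈ Finset.range n, B m)ᶜ ∈ d n := by
      rw [Set.compl_iUnion₂]
      have : ∀ m ∈ Finset.range n, (B m)ᶜ ∈ d n := by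
        intro m hm
        rw [Ultrafilter.compl_mem_iff_notMem]
        intro h
        have := hB2 m n h
        simp at hm
        omega
      exact (Filter.biInter_finset_mem _).mpr this
    exact Filter.inter_mem (hB1 n) h1
  have hA2 : ∀ m n, m ≠ n → Disjoint (A m) (A n) := by
    have : ∀ m n, m < n → Disjoint (A m) (A n) := by
      intro m n hmn
      rw [Set.disjoint_left]
      intro x hx hx'
      exact hx'.2 (Set.mem_iUnion₂.mpr ⟨m, Finset.mem_range.mpr hmn, hx.1⟩)
    intro m n hmn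
    rcases lt_or_gt_of_ne hmn with h | h
    · exact this m n h
    · exact (this n m h).symm
  have hA3 : ∀ m n, A m ∈ d n → m = n := by
    intro m n h
    by_contra hne
    obtain ⟨x, hx1, hx2⟩ := Ultrafilter.nonempty_of_mem (Filter.inter_mem h (hA1 n))
    exact Set.disjoint_left.mp (hA2 m n hne) hx1 hx2
  have hdT : ∀ n, ∃ E : Set ℝ, E.Countable ∧ E ∈ d n := by
    intro n
    obtain ⟨k, hk⟩ := (f n).2
    have : (s k).1 = d n := hk
    rw [← this]
    exact (s k).2
  choose E hE1 hE2 using hdT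
  have hmemL : ∀ (u : Ultrafilter ℕ) (t : Set ℝ), t ∈ u.bind d ↔ {n | t ∈ d n} ∈ u := fun _ _ => Iff.rfl
  have hLacc : ∀ u : NP, AccPt (u.1.bind d) (𝓟 P) := by
    intro u
    rw [accPt_iff_nhds]
    intro O hO
    obtain ⟨t, ht, htO⟩ := basic_nhds _ O hO
    have h1 : {n | t ∈ d n} ∈ u.1 := (hmemL _ _).mp ht
    have h2 : {n | t ∈ d n}.Infinite := fun hfin => u.2 _ hfin h1
    obtain ⟨n, hn, hne⟩ : ∃ n ∈ {n | t ∈ d n}, d n ≠ u.1.bind d := by
      by_contra hcon
      push Not at hcon
      apply h2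
      apply Set.Subsingleton.finite
      intro a ha b hb
      exact hd.injective ((hcon a ha).trans (hcon b hb).symm)
    exact ⟨d n, ⟨htO hn, (f n).2⟩, hne⟩
  have hLT : ∀ u : NP, ∃ E' : Set ℝ, E'.Countable ∧ E' ∈ u.1.bind d := by
    intro u
    refine ⟨⋃ n, E n, Set.countable_iUnion hE1, ?_⟩
    rw [hmemL]
    have : {n | (⋃ n, E n) ∈ d n} = Set.univ := by
      ext n
      simp only [Set.mem_ofPred_eq, Set.mem_univ, iff_true]
      exact Filter.mem_of_superset (hE2 n) (Set.subset_iUnion E n)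
    rw [this]
    exact Filter.univ_mem
  have h1 : #NP ≤ #(acc s) := by
    refine Cardinal.mk_le_of_injective (f := fun u : NP =>
      (⟨⟨u.1.bind d, hLT u⟩, hLacc u⟩ : acc s)) ?_
    intro u v h
    have h' : u.1.bind d = v.1.bind d := congrArg (fun z : acc s => z.1.1) h
    apply Subtype.ext
    ext b
    have hb : ∀ w : Ultrafilter ℕ, (⋃ n ∈ b, A n) ∈ w.bind d ↔ b ∈ w := by
      intro w
      rw [hmemL]
      have : {n | (⋃ n ∈ b, A n) ∈ d n} = b := by
        ext n
        simp only [Set.mem_ofPred_eq]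
        constructor
        · intro hn
          obtain ⟨x, hx1, hx2⟩ := Ultrafilter.nonempty_of_mem (Filter.inter_mem hn (hA1 n))
          obtain ⟨m, hm, hxm⟩ := Set.mem_iUnion₂.mp hx1
          by_cases hmn : m = n
          · rwa [← hmn]
          · exact absurd hx2 (Set.disjoint_left.mp (hA2 m n hmn) hxm)
        · intro hn
          exact Filter.mem_of_superset (hA1 n) (Set.subset_biUnion_of_mem (u := A) hn)
      rw [this]
    rw [← hb, ← hb, h']
  refine le_trans ?_ (mk_NP.trans h1)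
  simp

/-- the selected points -/
theorem exists_points : ∃ g : (ℕ → TT) × Bool → TT, Function.Injective g ∧
    ∀ s b, Function.Injective s → g (s, b) ∈ acc s := by
  classical
  have hW : #((ℕ → TT) × Bool) ≤ 2 ^ 𝔠 := by
    rw [Cardinal.mk_prod]
    simp only [Cardinal.lift_id]
    have h1 : #(ℕ → TT) ≤ 2 ^ 𝔠 := by
      calc #(ℕ → TT) = #TT ^ ℵ₀ := by simp
        _ ≤ (2 ^ 𝔠) ^ ℵ₀ := Cardinal.power_le_power_right mk_TT
        _ = 2 ^ (𝔠 * ℵ₀) := by rw [← Cardinal.power_mul]
        _ = 2 ^ 𝔠 := by rw [Cardinal.mul_aleph0_eq Cardinal.aleph0_le_continuum]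
    have hinf : ℵ₀ ≤ (2 : Cardinal.{0}) ^ 𝔠 := Cardinal.aleph0_le_continuum.trans (Cardinal.cantor _).le
    calc #(ℕ → TT) * #Bool ≤ 2 ^ 𝔠 * 2 ^ 𝔠 := by
          apply mul_le_mul' h1
          exact (Cardinal.lt_aleph0_of_finite Bool).le.trans hinf
      _ = 2 ^ 𝔠 := Cardinal.mul_eq_self hinf
  -- an injective sequence exists
  have hTTinf : Infinite TT := by
    refine Infinite.of_injective (fun n : ℕ => (⟨pure (n : ℝ), {(n : ℝ)}, Set.countable_singleton _, ?_⟩ : TT)) ?_
    · exact Ultrafilter.mem_pure.mpr rfl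
    · intro a b h
      have h' : (pure (a : ℝ) : U) = pure (b : ℝ) := congrArg Subtype.val h
      have := Ultrafilter.pure_injective h'
      exact_mod_cast this
  obtain ⟨s0, hs0⟩ : ∃ s0 : ℕ → TT, Function.Injective s0 := ⟨Infinite.natEmbedding TT, (Infinite.natEmbedding TT).injective⟩
  obtain ⟨g, hg1, hg2⟩ := select (W := (ℕ → TT) × Bool) (T := TT)
    (fun w => if Function.Injective w.1 then acc w.1 else Set.univ) (by
      intro w
      split_ifs with h
      · exact hW.trans (mk_acc _ h)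
      · refine hW.trans ((mk_acc s0 hs0).trans ?_)
        exact Cardinal.mk_le_mk_of_subset (Set.subset_univ _))
  refine ⟨g, hg1, fun s b hs => ?_⟩
  have := hg2 (s, b)
  simpa [hs] using this

end part3

section part4

/-- the selection function, fixed once and for all -/
noncomputable def gg : (ℕ → TT) × Bool → TT := Classical.choose exists_points

theorem gg_inj : Function.Injective gg := (Classical.choose_spec exists_points).1

theorem gg_acc (s : ℕ → TT) (b : Bool) (hs : Function.Injective s) : gg (s, b) ∈ acc s :=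
  (Classical.choose_spec exists_points).2 s b hs

theorem exists_p : ∃ p : U, ∀ E : Set ℝ, E.Countable → E ∉ p := by
  have hNB : (Filter.cocountable : Filter ℝ).NeBot := by
    refine ⟨fun hbot => ?_⟩
    have h : (∅ : Set ℝ) ∈ (Filter.cocountable : Filter ℝ) := by rw [hbot]; trivial
    rw [Filter.mem_cocountable, Set.compl_empty] at h
    exact Cardinal.not_countable_real h
  refine ⟨Ultrafilter.of Filter.cocountable, fun E hE hmem => ?_⟩
  have h1 : Eᶜ ∈ Ultrafilter.of (Filter.cocountable : Filter ℝ) := by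
    apply Ultrafilter.of_le
    rw [Filter.mem_cocountable, compl_compl]
    exact hE
  exact (Ultrafilter.compl_mem_iff_notMem.mp h1) hmem

noncomputable def pp : U := Classical.choose exists_p
theorem pp_spec (E : Set ℝ) (hE : E.Countable) : E ∉ pp := Classical.choose_spec exists_p E hE

/-- the two spaces -/
def ZZ (b : Bool) : Set U :=
  {u | (∃ r : ℝ, u = pure r) ∨ u = pp ∨ ∃ s : ℕ → TT, u = (gg (s, b)).1}

theorem ZZ_inter (u : U) (h1 : u ∈ ZZ true) (h2 : u ∈ ZZ false) : (∃ r : ℝ, u = pure r) ∨ u = pp := by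
  rcases h1 with h | h | ⟨s, hs⟩
  · exact Or.inl h
  · exact Or.inr h
  · rcases h2 with h | h | ⟨s', hs'⟩
    · exact Or.inl h
    · exact Or.inr h
    · exfalso
      have : gg (s, true) = gg (s', false) := Subtype.ext (hs.symm.trans hs')
      have := gg_inj this
      simp at this

theorem ZZ_cc (b : Bool) : CountablyCompactIn (Set.univ : Set (ZZ b)) := by
  intro B _ hB
  -- infinitely many points of `B` lie in `TT`
  let B' : Set TT := {w | ∃ z ∈ B, z.1 = w.1}
  have hB' : B'.Infinite := by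
    intro hfin
    apply hB
    have h1 : B ⊆ (fun z : ZZ b => z.1) ⁻¹' (insert pp ((fun w : TT => w.1) '' B')) := by
      intro z hz
      show z.1 ∈ insert pp ((fun w : TT => w.1) '' B')
      rcases z.2 with ⟨r, hr⟩ | h | ⟨s, hs⟩
      · right
        refine ⟨⟨z.1, {r}, Set.countable_singleton r, ?_⟩, ⟨z, hz, rfl⟩, rfl⟩
        rw [hr]
        exact Ultrafilter.mem_pure.mpr rfl
      · left; exact h
      · right
        refine ⟨⟨z.1, ?_⟩, ⟨z, hz, rfl⟩, rfl⟩
        rw [hs]
        exact (gg (s, b)).2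
    refine Set.Finite.subset ?_ h1
    apply Set.Finite.preimage (Subtype.val_injective.injOn)
    exact (hfin.image _).insert _
  have : Infinite B' := hB'.to_subtype
  let e := Infinite.natEmbedding B'
  let s : ℕ → TT := fun n => (e n).1
  have hs : Function.Injective s := fun a b h => e.injective (Subtype.ext h)
  have hacc := gg_acc s b hs
  refine ⟨⟨(gg (s, b)).1, Or.inr (Or.inr ⟨s, rfl⟩)⟩, ?_⟩
  have hacc' : AccPt (gg (s, b)).1 (𝓟 (Set.range (fun n => (s n).1))) := hacc
  rw [accPt_iff_nhds] at hacc' ⊢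
  intro O hO
  obtain ⟨O', hO', hsub⟩ := (mem_nhds_subtype _ _ _).mp hO
  obtain ⟨y, ⟨hyO, ⟨n, hn⟩⟩, hne⟩ := hacc' O' hO'
  obtain ⟨z, hzB, hz⟩ := (e n).2
  have hzy : z.1 = y := by rw [hz]; exact hn
  refine ⟨z, ⟨hsub (by show z.1 ∈ O'; rw [hzy]; exact hyO), hzB⟩, ?_⟩
  intro h
  apply hne
  rw [← hzy, h]

open Classical in
/-- indicator function of the diagonal over `E ⊆ ℝ` -/
noncomputable def fE (E : Set ℝ) : (ZZ true × ZZ false) → ℝ := fun q =>
  if ∃ r ∈ E, q.1.1 = pure r ∧ q.2.1 = pure r then 1 else 0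

theorem fE_pos (E : Set ℝ) (q : ZZ true × ZZ false) (h : ∃ r ∈ E, q.1.1 = pure r ∧ q.2.1 = pure r) :
    fE E q = 1 := by
  unfold fE
  rw [if_pos h]

theorem fE_neg (E : Set ℝ) (q : ZZ true × ZZ false) (h : ¬ ∃ r ∈ E, q.1.1 = pure r ∧ q.2.1 = pure r) :
    fE E q = 0 := by
  unfold fE
  rw [if_neg h]

theorem eq_pure (u : U) (r : ℝ) (h : ({r} : Set ℝ) ∈ u) : u = pure r := by
  obtain ⟨x, hx, hux⟩ := Ultrafilter.eq_pure_of_finite_mem (Set.finite_singleton r) h
  rw [Set.mem_singleton_iff] at hx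
  rw [hux, hx]

theorem box_open (s t : Set ℝ) : IsOpen {q : ZZ true × ZZ false | s ∈ q.1.1 ∧ t ∈ q.2.1} := by
  have h1 : IsOpen {q : ZZ true × ZZ false | s ∈ q.1.1} :=
    (ultrafilter_isOpen_basic s).preimage (continuous_subtype_val.comp continuous_fst)
  have h2 : IsOpen {q : ZZ true × ZZ false | t ∈ q.2.1} :=
    (ultrafilter_isOpen_basic t).preimage (continuous_subtype_val.comp continuous_snd)
  exact h1.inter h2

theorem fE_cont (E : Set ℝ) (hE : E.Countable) : Continuous (fE E) := by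
  rw [continuous_iff_continuousAt]
  intro q
  by_cases h : ∃ r ∈ E, q.1.1 = pure r ∧ q.2.1 = pure r
  · obtain ⟨r, hr, h1, h2⟩ := h
    have hev : ∀ᶠ q' in 𝓝 q, fE E q' = fE E q := by
      have hmem : q ∈ {q : ZZ true × ZZ false | ({r} : Set ℝ) ∈ q.1.1 ∧ ({r} : Set ℝ) ∈ q.2.1} := by
        constructor
        · rw [h1]; exact Ultrafilter.mem_pure.mpr rfl
        · rw [h2]; exact Ultrafilter.mem_pure.mpr rfl
      filter_upwards [(box_open {r} {r}).mem_nhds hmem] with q' hq'
      have e1 : q'.1.1 = pure r := eq_pure _ _ hq'.1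
      have e2 : q'.2.1 = pure r := eq_pure _ _ hq'.2
      rw [fE_pos E q' ⟨r, hr, e1, e2⟩, fE_pos E q ⟨r, hr, h1, h2⟩]
    exact (continuousAt_congr hev).mpr continuousAt_const
  · have hev : ∀ᶠ q' in 𝓝 q, fE E q' = 0 := by
      by_cases hne : q.1.1 = q.2.1
      · rcases ZZ_inter q.1.1 q.1.2 (hne ▸ q.2.2) with ⟨r, hr⟩ | hp
        · have hrE : r ∉ E := fun hrE => h ⟨r, hrE, hr, hne ▸ hr⟩
          have hmem : q ∈ {q : ZZ true × ZZ false | ({r} : Set ℝ) ∈ q.1.1 ∧ ({r} : Set ℝ) ∈ q.2.1} := by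
            constructor
            · rw [hr]; exact Ultrafilter.mem_pure.mpr rfl
            · rw [← hne, hr]; exact Ultrafilter.mem_pure.mpr rfl
          filter_upwards [(box_open {r} {r}).mem_nhds hmem] with q' hq'
          apply fE_neg
          rintro ⟨r', hr', h1, _⟩
          have e1 : q'.1.1 = pure r := eq_pure _ _ hq'.1
          rw [e1] at h1
          have := Ultrafilter.pure_injective h1
          exact hrE (this ▸ hr')
        · have hEc : Eᶜ ∈ pp := Ultrafilter.compl_mem_iff_notMem.mpr (pp_spec E hE)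
          have hmem : q ∈ {q : ZZ true × ZZ false | Eᶜ ∈ q.1.1 ∧ Eᶜ ∈ q.2.1} := by
            constructor
            · rw [hp]; exact hEc
            · rw [← hne, hp]; exact hEc
          filter_upwards [(box_open Eᶜ Eᶜ).mem_nhds hmem] with q' hq'
          apply fE_neg
          rintro ⟨r', hr', h1, _⟩
          have h2 := hq'.1
          rw [h1] at h2
          exact (Ultrafilter.mem_pure.mp h2) hr'
      · obtain ⟨s, hs1, hs2⟩ : ∃ s : Set ℝ, s ∈ q.1.1 ∧ sᶜ ∈ q.2.1 := by
          by_contra hcon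
          push Not at hcon
          apply hne
          ext s
          constructor
          · intro h1
            by_contra h2
            exact hcon s h1 (Ultrafilter.compl_mem_iff_notMem.mpr h2)
          · intro h1
            by_contra h2
            have h3 := hcon sᶜ (Ultrafilter.compl_mem_iff_notMem.mpr h2)
            rw [compl_compl] at h3
            exact h3 h1
        filter_upwards [(box_open s sᶜ).mem_nhds ⟨hs1, hs2⟩] with q' hq'
        apply fE_neg
        rintro ⟨r', hr', h1, h2⟩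
        have h3 := hq'.1
        have h4 := hq'.2
        rw [h1] at h3
        rw [h2] at h4
        exact (Ultrafilter.mem_pure.mp h4) (Ultrafilter.mem_pure.mp h3)
    have h0 : fE E q = 0 := hev.self_of_nhds
    have : ∀ᶠ q' in 𝓝 q, fE E q' = (fun _ => (0:ℝ)) q' := hev
    exact (continuousAt_congr this).mpr continuousAt_const

/-- `C_p` of the product is not a g-space. -/
theorem not_gspace : ¬ IsGSpace (Cp (ZZ true × ZZ false)) := by
  classical
  intro H
  let A : Set (Cp (ZZ true × ZZ false)) := {f | ∃ (E : Set ℝ) (hE : E.Countable), f = ⟨fE E, fE_cont E hE⟩}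
  have hA : CountablyCompactIn A := by
    intro B hBA hB
    have : Infinite B := hB.to_subtype
    let e := Infinite.natEmbedding B
    choose E hE hEe using fun n => hBA (e n).2
    let E' : Set ℝ := ⋃ n, E n
    have hE' : E'.Countable := Set.countable_iUnion hE
    let Θ : (ℝ → Bool) → Cp (ZZ true × ZZ false) := fun w =>
      ⟨fE (E' ∩ {r | w r = true}), fE_cont _ (hE'.mono Set.inter_subset_left)⟩
    have hΘ : Continuous Θ := by
      apply Continuous.subtype_mk
      apply continuous_pi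
      intro q
      by_cases h : ∃ r ∈ E', q.1.1 = pure r ∧ q.2.1 = pure r
      · obtain ⟨r, hr, h1, h2⟩ := h
        have : (fun w : ℝ → Bool => fE (E' ∩ {r | w r = true}) q) = fun w => if w r = true then (1:ℝ) else 0 := by
          funext w
          by_cases hw : w r = true
          · rw [fE_pos (E' ∩ {r | w r = true}) q ⟨r, ⟨hr, hw⟩, h1, h2⟩, if_pos hw]
          · rw [if_neg hw]
            apply fE_neg
            rintro ⟨r', ⟨_, hr'⟩, h1', _⟩
            rw [h1] at h1'
            have := Ultrafilter.pure_injective h1'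
            rw [this] at hw
            exact hw hr'
        rw [this]
        exact (continuous_of_discreteTopology (f := fun b : Bool => if b = true then (1:ℝ) else 0)).comp (continuous_apply r)
      · have : (fun w : ℝ → Bool => fE (E' ∩ {r | w r = true}) q) = fun _ => (0:ℝ) := by
          funext w
          apply fE_neg
          rintro ⟨r, ⟨hr, _⟩, h12⟩
          exact h ⟨r, hr, h12⟩
        rw [this]
        exact continuous_const
    have hC : IsCompact (Set.range Θ) := isCompact_range hΘ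
    have hinf : (Set.range (fun n => (e n).1)).Infinite :=
      Set.infinite_range_of_injective (fun a b h => e.injective (Subtype.ext h))
    obtain ⟨z, _, hz⟩ := hinf.exists_accPt_of_subset_isCompact hC (by
      rintro _ ⟨n, rfl⟩
      refine ⟨fun r => decide (r ∈ E n), ?_⟩
      show Θ _ = (e n).1
      rw [hEe n]
      apply Subtype.ext
      show fE (E' ∩ {r | decide (r ∈ E n) = true}) = fE (E n)
      congr 1
      ext r
      simp only [Set.mem_inter_iff, Set.mem_ofPred_eq, decide_eq_true_eq]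
      constructor
      · exact fun h => h.2
      · exact fun h => ⟨Set.mem_iUnion.mpr ⟨n, h⟩, h⟩)
    refine ⟨z, hz.mono ?_⟩
    rw [Filter.principal_mono]
    rintro _ ⟨n, rfl⟩
    exact (e n).2
  have hK := H A hA
  -- the full diagonal function is in the closure
  have hK2 : IsClosed ((fun f : Cp (ZZ true × ZZ false) => f.1) '' closure A) :=
    (hK.image continuous_subtype_val).isClosed
  have hfull : fE Set.univ ∈ (fun f : Cp (ZZ true × ZZ false) => f.1) '' closure A := by
    apply hK2.closure_subset_iff.mpr (Set.image_mono subset_closure)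
    rw [mem_closure_iff]
    intro O hO hfO
    obtain ⟨I, w, hw, hI⟩ := isOpen_pi_iff.mp hO _ hfO
    let E : Set ℝ := ⋃ q ∈ I, {r | q.1.1 = pure r}
    have hE : E.Countable := by
      apply Set.Countable.biUnion I.countable_toSet
      intro q _
      apply Set.Subsingleton.countable
      intro a ha b hb
      exact Ultrafilter.pure_injective (ha.symm.trans hb)
    refine ⟨fE E, hI ?_, ⟨⟨fE E, fE_cont E hE⟩, ⟨E, hE, rfl⟩, rfl⟩⟩
    intro q hq
    have : fE E q = fE Set.univ q := by
      by_cases h : ∃ r ∈ (Set.univ : Set ℝ), q.1.1 = pure r ∧ q.2.1 = pure r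
      · obtain ⟨r, _, h1, h2⟩ := h
        rw [fE_pos Set.univ q ⟨r, Set.mem_univ r, h1, h2⟩]
        apply fE_pos
        exact ⟨r, Set.mem_iUnion₂.mpr ⟨q, hq, h1⟩, h1, h2⟩
      · rw [fE_neg Set.univ q h]
        apply fE_neg
        rintro ⟨r, _, h12⟩
        exact h ⟨r, Set.mem_univ r, h12⟩
    rw [this]
    exact (hw q hq).2
  obtain ⟨f, _, hf⟩ := hfull
  have hcont : Continuous (fE Set.univ) := by
    rw [← hf]
    exact f.2
  -- contradiction at (pp, pp)
  let a : ZZ true := ⟨pp, Or.inr (Or.inl rfl)⟩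
  let b : ZZ false := ⟨pp, Or.inr (Or.inl rfl)⟩
  let ja : ℝ → ZZ true := fun r => ⟨pure r, Or.inl ⟨r, rfl⟩⟩
  let jb : ℝ → ZZ false := fun r => ⟨pure r, Or.inl ⟨r, rfl⟩⟩
  have hja : Tendsto ja (pp : Filter ℝ) (𝓝 a) := by
    rw [tendsto_subtype_rng]
    exact Ultrafilter.tendsto_pure_self pp
  have hjb : Tendsto jb (pp : Filter ℝ) (𝓝 b) := by
    rw [tendsto_subtype_rng]
    exact Ultrafilter.tendsto_pure_self pp
  have h1 : Tendsto (fun r => fE Set.univ (ja r, jb r)) (pp : Filter ℝ) (𝓝 (fE Set.univ (a, b))) :=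
    (hcont.tendsto (a, b)).comp (hja.prodMk_nhds hjb)
  have h2 : (fun r => fE Set.univ (ja r, jb r)) = fun _ => (1:ℝ) := by
    funext r
    exact fE_pos Set.univ (ja r, jb r) ⟨r, Set.mem_univ r, rfl, rfl⟩
  rw [h2] at h1
  have h3 : fE Set.univ (a, b) = 0 := by
    apply fE_neg
    rintro ⟨r, _, h, _⟩
    have h' : pp = pure r := h
    have := pp_spec {r} (Set.countable_singleton r)
    rw [h'] at this
    exact this (Ultrafilter.mem_pure.mpr rfl)
  rw [h3] at h1
  have := tendsto_nhds_unique h1 tendsto_const_nhds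
  exact zero_ne_one this

end part4

theorem weakly_of_groth {X : Type u} [TopologicalSpace X] (h : Grothendieck X) : WeaklyGrothendieck X := by
  intro A hA
  let h0 : (Set.univ : Set (Cp X)) ≃ₜ Cp X := Homeomorph.Set.univ (Cp X)
  have h1 : CountablyCompactIn (h0 ⁻¹' A) := by
    intro B hB hBinf
    obtain ⟨z, hz⟩ := hA (h0 '' B) (by rintro _ ⟨b, hb, rfl⟩; exact hB hb) (hBinf.image h0.injective.injOn)
    refine ⟨h0.symm z, ?_⟩
    rw [accPt_iff_nhds] at hz ⊢
    intro O hO
    have hO' : h0.symm ⁻¹' O ∈ 𝓝 z := h0.symm.continuous.continuousAt.preimage_mem_nhds hO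
    obtain ⟨y, ⟨hyO, ⟨b, hb, rfl⟩⟩, hne⟩ := hz _ hO'
    refine ⟨b, ⟨by simpa using hyO, hb⟩, ?_⟩
    intro hbz
    apply hne
    rw [hbz]
    simp
  have h2 := h Set.univ (h0 ⁻¹' A) h1
  have h3 := h2.image h0.continuous
  rw [h0.image_closure, h0.image_preimage] at h3
  exact h3

/-- There are two (Tychonoff) Grothendieck spaces whose product is neither Grothendieck nor weakly
Grothendieck. -/
theorem result : ∃ (X Y : Type) (_ : TopologicalSpace X) (_ : TopologicalSpace Y),
    T35Space X ∧ T35Space Y ∧ Grothendieck X ∧ Grothendieck Y ∧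
    ¬ Grothendieck (X × Y) ∧ ¬ WeaklyGrothendieck (X × Y) := by
  refine ⟨ZZ true, ZZ false, inferInstance, inferInstance, inferInstance, inferInstance,
    groth_of_cc (ZZ_cc true), groth_of_cc (ZZ_cc false), ?_, not_gspace⟩
  intro h
  exact not_gspace (weakly_of_groth h)

end Pool.Agent.Results.MP_20595b_gt.GrothProd
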